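import Pool.Agent.Run7.h992.OM.K1

/-!
# Project OM, piece K3c: the automorphic kernel is not zero
-/

set_option autoImplicit false

open UpperHalfPlane MeasureTheory Complex Filter Topology
open scoped MatrixGroups

namespace Run7.h488.OM

open Run7.h992.OM

/-- a point with trivial stabiliser -/
noncomputable def z0 : ℍ := ⟨1 / 4 + 2 * Complex.I, by norm_num⟩

theorem z0_coe : (z0 : ℂ) = 1 / 4 + 2 * Complex.I := rfl

theorem z0_re : z0.re = 1 / 4 := by
  rw [← coe_re, z0_coe]; norm_num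

theorem z0_im : z0.im = 2 := by
  rw [← coe_im, z0_coe]; norm_num

theorem stab_aux {g : SL(2, ℤ)} (h : (g • z0).im = 2) :
    g 1 0 = 0 ∧ ((g 1 1 = 1 ∧ g 0 0 = 1) ∨ (g 1 1 = -1 ∧ g 0 0 = -1)) := by
  have h1 := ModularGroup.im_smul_eq_div_normSq g z0
  have h2 : Complex.normSq (denom g z0) =
      ((g 1 0 : ℝ) / 4 + g 1 1) ^ 2 + (2 * (g 1 0 : ℝ)) ^ 2 := by
    rw [ModularGroup.denom_apply, z0_coe, Complex.normSq_apply]
    simp
    ring
  have hpos : 0 < Complex.normSq (denom g z0) := by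
    rw [Complex.normSq_pos]; exact denom_ne_zero _ _
  rw [h, z0_im, eq_div_iff hpos.ne', h2] at h1
  have h3 : ((g 1 0 : ℤ) + 4 * g 1 1) ^ 2 + 64 * (g 1 0) ^ 2 = 16 := by
    have : (((g 1 0 : ℤ) : ℝ) + 4 * g 1 1) ^ 2 + 64 * (g 1 0) ^ 2 = 16 := by
      linarith
    exact_mod_cast this
  have h4 : g 1 0 = 0 := by
    by_contra hne
    have : 1 ≤ (g 1 0) ^ 2 := by
      have := sq_pos_of_ne_zero hne
      omega
    nlinarith [sq_nonneg ((g 1 0 : ℤ) + 4 * g 1 1)]
  refine ⟨h4, ?_⟩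
  have hdet := g.det_coe
  rw [Matrix.det_fin_two, h4, mul_zero, sub_zero] at hdet
  exact (Int.mul_eq_one_iff_eq_one_or_neg_one.1 hdet).imp (fun h => ⟨h.2, h.1⟩) fun h => ⟨h.2, h.1⟩

theorem stab_re {g : SL(2, ℤ)} (h : (g • z0).im = 2) :
    (g • z0).re = 1 / 4 + (g 0 1 : ℝ) * g 1 1 := by
  obtain ⟨h1, h2⟩ := stab_aux h
  rw [← coe_re, coe_specialLinearGroup_apply, h1, z0_coe]
  rcases h2 with ⟨h2, h3⟩ | ⟨h2, h3⟩
  · rw [h2, h3]
    simp
  · rw [h2, h3]
    simp
    rw [div_neg, div_one]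
    simp
    ring

theorem stab1 {g : SL(2, ℤ)} (h : g • z0 = z0) : g = 1 ∨ g = -1 := by
  have h1 : (g • z0).im = 2 := by rw [h, z0_im]
  have h2 := stab_re h1
  rw [h, z0_re] at h2
  obtain ⟨h3, h4⟩ := stab_aux h1
  rcases h4 with ⟨h4, h5⟩ | ⟨h4, h5⟩
  · left
    rw [h4] at h2
    have h6 : g 0 1 = 0 := by
      have : (g 0 1 : ℝ) = 0 := by push_cast at h2; linarith
      exact_mod_cast this
    ext i j
    fin_cases i <;> fin_cases j <;> simp [h3, h4, h5, h6]
  · right
    rw [h4] at h2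
    have h6 : g 0 1 = 0 := by
      have : (g 0 1 : ℝ) = 0 := by push_cast at h2; linarith
      exact_mod_cast this
    ext i j
    fin_cases i <;> fin_cases j <;> simp [h3, h4, h5, h6]

theorem stab2 (g : SL(2, ℤ)) : J • (g • z0) ≠ z0 := by
  intro h
  have h0 : ((J • (g • z0) : ℍ) : ℂ) = -(starRingEnd ℂ) ((g • z0 : ℍ) : ℂ) := coe_J_smul _
  rw [h] at h0
  have h1 : (g • z0).im = 2 := by
    have := congrArg Complex.im h0
    simp only [coe_im, Complex.neg_im, Complex.conj_im, neg_neg, z0_im] at this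
    exact this.symm
  have h2 : (g • z0).re = -(1 / 4) := by
    have := congrArg Complex.re h0
    simp only [coe_re, Complex.neg_re, Complex.conj_re, z0_re] at this
    linarith
  rw [stab_re h1] at h2
  have h3 : (2 : ℤ) * (g 0 1 * g 1 1) = -1 := by
    have : (2 : ℝ) * (g 0 1 * g 1 1) = -1 := by linarith
    exact_mod_cast this
  omega

theorem k_self (s : ℕ) (z : ℍ) : k s z z = 1 := by
  unfold k; simp

theorem k_tendsto {z w : ℍ} (h : z ≠ w) : Tendsto (fun s => k s z w) atTop (𝓝 0) := by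
  have h1 : ∀ s, k s z w = (k 1 z w) ^ s := fun s => by simp [k]
  have h2 : (fun s => k s z w) = fun s => (k 1 z w) ^ s := funext h1
  rw [h2]
  exact tendsto_pow_atTop_nhds_zero_of_lt_one (k_pos 1 z w).le (k_lt_one one_ne_zero h)

theorem k_anti {s t : ℕ} (h : s ≤ t) (z w : ℍ) : k t z w ≤ k s z w := by
  have h1 : ∀ s, k s z w = (k 1 z w) ^ s := fun s => by simp [k]
  rw [h1 t, h1 s]
  exact pow_le_pow_of_le_one (k_pos 1 z w).le (k_le_one 1 z w) h

theorem J_J (z : ℍ) : J • (J • z) = z := by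
  rw [← mul_smul, ← sq, J_sq, one_smul]

/-- the limit of the terms of the kernel -/
noncomputable def lim (g : SL(2, ℤ)) : ℝ :=
  open scoped Classical in if g = 1 ∨ g = -1 then 1 else 0

theorem one_ne_neg_one : (1 : SL(2, ℤ)) ≠ -1 := by
  intro h
  have := congrArg (fun g : SL(2, ℤ) => g 0 0) h
  simp at this

theorem lim_tsum : ∑' g, lim g = 2 := by
  classical
  rw [tsum_eq_sum (s := {1, -1})]
  · rw [Finset.sum_pair one_ne_neg_one]
    simp [lim]
    try norm_num
  · intro g hg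
    simp only [Finset.mem_insert, Finset.mem_singleton] at hg
    simp [lim, hg]

/-- Piece K3c, given the summability of the kernel. -/
theorem kap_ne_of (hsum : ∀ z w : ℍ, Summable fun g : SL(2, ℤ) => k 6 z (g • w)) :
    ∃ s : ℕ, 6 ≤ s ∧ ∃ z : ℍ, |z.re| < 1 / 2 ∧ 1 / 2 < z.im ∧ 0 < kap s z z := by
  have h1 : Tendsto (fun s => kap s z0 z0) atTop (𝓝 2) := by
    rw [← lim_tsum]
    have hb : Summable fun g : SL(2, ℤ) => k 6 z0 (g • z0) + k 6 z0 (J • (g • z0)) := by
      refine (hsum z0 z0).add ?_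
      have h2 := hsum (J • z0) z0
      refine h2.congr fun g => ?_
      rw [← k_smul 6 J (J • z0), J_J]
    refine tendsto_tsum_of_dominated_convergence hb ?_ ?_
    · intro g
      have h3 : Tendsto (fun s => k s z0 (J • (g • z0))) atTop (𝓝 0) :=
        k_tendsto (stab2 g).symm
      by_cases hg : g = 1 ∨ g = -1
      · have h4 : g • z0 = z0 := by
          rcases hg with rfl | rfl
          · rw [one_smul]
          · rw [ModularGroup.SL_neg_smul, one_smul]
        have h5 : lim g = 1 - 0 := by simp [lim, hg]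
        rw [h5]
        refine Tendsto.sub ?_ h3
        simp only [h4, k_self]
        exact tendsto_const_nhds
      · have h4 : z0 ≠ g • z0 := fun h => hg (stab1 h.symm)
        have h5 : lim g = 0 - 0 := by simp [lim, hg]
        rw [h5]
        exact (k_tendsto h4).sub h3
    · filter_upwards [eventually_ge_atTop 6] with s hs g
      have h3 := k_anti hs z0 (g • z0)
      have h4 := k_anti hs z0 (J • (g • z0))
      have h5 := (k_pos s z0 (g • z0)).le
      have h6 := (k_pos s z0 (J • (g • z0))).le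
      rw [Real.norm_eq_abs, abs_le]
      constructor <;> linarith
  have h2 : ∀ᶠ s in atTop, 0 < kap s z0 z0 := h1.eventually (lt_mem_nhds (by norm_num))
  obtain ⟨s, hs1, hs2⟩ := (h2.and (eventually_ge_atTop 6)).exists
  refine ⟨s, hs2, z0, ?_, ?_, hs1⟩
  · rw [z0_re]; norm_num [abs_lt]
  · rw [z0_im]; norm_num

end Run7.h488.OM
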