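import Pool.Agent.Run7.h992.OM.Defs

/-!
# Project OM, piece W: the Whittaker function of an odd Hecke-Maass cusp form

The first Fourier coefficient of the form: boundedness, differential equation, and the relation of
all other Fourier coefficients with it which follows from the Hecke relations.
-/

set_option autoImplicit false

open UpperHalfPlane MeasureTheory Complex Filter Topology
open scoped MatrixGroups

namespace Run7.h488.OM

open Run7.h992.OM

/-- the upper half plane as a subset of `ℂ` -/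
def S : Set ℂ := {z : ℂ | 0 < z.im}

theorem isOpen_S : IsOpen S := isOpen_lt continuous_const Complex.continuous_im

theorem mem_S {z : ℂ} : z ∈ S ↔ 0 < z.im := Iff.rfl

theorem line_mem {x y : ℝ} (hy : 0 < y) : (x : ℂ) + y * Complex.I ∈ S := by
  simp [mem_S, hy]

/-- the exponential weight -/
noncomputable def e (n : ℤ) (x : ℝ) : ℂ := Complex.exp (-(2 * Real.pi * Complex.I * n * x))

theorem e_cont (n : ℤ) : Continuous (e n) := by
  unfold e; fun_prop

theorem norm_e (n : ℤ) (x : ℝ) : ‖e n x‖ = 1 := by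
  have h : -(2 * Real.pi * Complex.I * n * x) = ((-(2 * Real.pi * n * x) : ℝ) : ℂ) * Complex.I := by
    push_cast; ring
  rw [e, h, Complex.norm_exp_ofReal_mul_I]

theorem e_add_int (n : ℤ) (x : ℝ) (m : ℤ) : e n (x + m) = e n x := by
  unfold e
  have h : -(2 * Real.pi * Complex.I * n * ((x + m : ℝ) : ℂ)) =
      -(2 * Real.pi * Complex.I * n * x) + ((-(n * m) : ℤ) : ℂ) * (2 * Real.pi * Complex.I) := by
    push_cast; ring
  rw [h, Complex.exp_add, Complex.exp_int_mul_two_pi_mul_I, mul_one]

theorem e_hasDerivAt (n : ℤ) (x : ℝ) :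
    HasDerivAt (e n) (-(2 * Real.pi * Complex.I * n) * e n x) x := by
  have h1 : HasDerivAt (fun t : ℂ => -(2 * Real.pi * Complex.I * n) * t)
      (-(2 * Real.pi * Complex.I * n)) (x : ℂ) := by
    have := (hasDerivAt_id (x : ℂ)).const_mul (-(2 * Real.pi * Complex.I * n))
    simpa using this
  have h2 := h1.cexp.comp_ofReal
  have h3 : e n = fun t : ℝ => Complex.exp (-(2 * Real.pi * Complex.I * n) * (t : ℂ)) := by
    funext t
    rw [e]
    congr 1
    ring
  rw [h3]
  refine h2.congr_deriv ?_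
  ring

section smooth

variable {G : ℂ → ℂ}

theorem hasDerivAt_y (hG : ContDiffOn ℝ 1 G S) {x y : ℝ} (hy : 0 < y) :
    HasDerivAt (fun y : ℝ => G (x + y * Complex.I))
      (fderiv ℝ G (x + y * Complex.I) Complex.I) y := by
  have h1 : DifferentiableAt ℝ G (x + y * Complex.I) :=
    (hG.differentiableOn (by norm_num)).differentiableAt (isOpen_S.mem_nhds (line_mem hy))
  have h2 : HasDerivAt (fun y : ℝ => (x : ℂ) + y * Complex.I) Complex.I y := by
    have := ((Complex.ofRealCLM.hasDerivAt (x := y)).mul_const Complex.I).const_add (x : ℂ)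
    simpa using this
  exact h1.hasFDerivAt.comp_hasDerivAt y h2

theorem hasDerivAt_x (hG : ContDiffOn ℝ 1 G S) {x y : ℝ} (hy : 0 < y) :
    HasDerivAt (fun x : ℝ => G (x + y * Complex.I))
      (fderiv ℝ G (x + y * Complex.I) 1) x := by
  have h1 : DifferentiableAt ℝ G (x + y * Complex.I) :=
    (hG.differentiableOn (by norm_num)).differentiableAt (isOpen_S.mem_nhds (line_mem hy))
  have h2 : HasDerivAt (fun x : ℝ => (x : ℂ) + y * Complex.I) 1 x := by
    have := (Complex.ofRealCLM.hasDerivAt (x := x)).add_const ((y : ℂ) * Complex.I)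
    simpa using this
  exact h1.hasFDerivAt.comp_hasDerivAt x h2

theorem cont_line {f : ℂ → ℂ} (hf : ContinuousOn f S) {y : ℝ} (hy : 0 < y) :
    Continuous fun x : ℝ => f (x + y * Complex.I) :=
  hf.comp_continuous (by fun_prop) fun x => line_mem hy

theorem cont_fderiv (hG : ContDiffOn ℝ 1 G S) (v : ℂ) :
    ContinuousOn (fun z => fderiv ℝ G z v) S :=
  (hG.continuousOn_fderiv_of_isOpen isOpen_S (by norm_num)).clm_apply continuousOn_const

theorem contDiffOn_fderiv (hG : ContDiffOn ℝ 2 G S) (v : ℂ) :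
    ContDiffOn ℝ 1 (fun z => fderiv ℝ G z v) S :=
  (hG.fderiv_of_isOpen isOpen_S (by norm_num)).clm_apply contDiffOn_const

/-- differentiation of a Fourier coefficient in `y` -/
theorem hasDerivAt_coeff (hG : ContDiffOn ℝ 1 G S) (n : ℤ) {y : ℝ} (hy : 0 < y) :
    HasDerivAt (fun y : ℝ => ∫ x in (0 : ℝ)..1, G (x + y * Complex.I) * e n x)
      (∫ x in (0 : ℝ)..1, fderiv ℝ G (x + y * Complex.I) Complex.I * e n x) y := by
  have hc : ContinuousOn (fun p : ℝ × ℝ => ‖fderiv ℝ G (p.1 + p.2 * Complex.I) Complex.I‖)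
      (Set.Icc 0 1 ×ˢ Set.Icc (y / 2) (2 * y)) := by
    apply ContinuousOn.norm
    apply (cont_fderiv hG Complex.I).comp (by fun_prop)
    rintro ⟨a, b⟩ ⟨-, hb⟩
    exact line_mem (by have := hb.1; dsimp at this ⊢; linarith)
  obtain ⟨C, hC⟩ := (isCompact_Icc.prod isCompact_Icc).exists_bound_of_continuousOn hc
  refine (intervalIntegral.hasDerivAt_integral_of_dominated_loc_of_deriv_le
    (s := Set.Icc (y / 2) (2 * y)) (bound := fun _ => C)
    (F := fun (y : ℝ) (x : ℝ) => G (x + y * Complex.I) * e n x)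
    (F' := fun (y : ℝ) (x : ℝ) => fderiv ℝ G (x + y * Complex.I) Complex.I * e n x)
    (Icc_mem_nhds (by linarith) (by linarith)) ?_ ?_ ?_ ?_ ?_ ?_).2
  · filter_upwards [lt_mem_nhds hy] with t ht
    exact ((cont_line hG.continuousOn ht).mul (e_cont n)).aestronglyMeasurable
  · exact ((cont_line hG.continuousOn hy).mul (e_cont n)).intervalIntegrable _ _
  · exact ((cont_line (cont_fderiv hG _) hy).mul (e_cont n)).aestronglyMeasurable
  · refine Eventually.of_forall fun x hx t ht => ?_
    rw [Set.uIoc_of_le zero_le_one] at hx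
    rw [norm_mul, norm_e, mul_one]
    have := hC (x, t) ⟨⟨hx.1.le, hx.2⟩, ht⟩
    simpa using this
  · exact intervalIntegrable_const
  · refine Eventually.of_forall fun x hx t ht => ?_
    exact (hasDerivAt_y hG (by have := ht.1; linarith)).mul_const (e n x)

/-- integration by parts in `x` for periodic functions -/
theorem integral_xx (hG : ContDiffOn ℝ 2 G S) (hper : ∀ z ∈ S, G (z + 1) = G z) (n : ℤ) {y : ℝ}
    (hy : 0 < y) :
    ∫ x in (0 : ℝ)..1, fderiv ℝ (fun z => fderiv ℝ G z 1) (x + y * Complex.I) 1 * e n x =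
      -(2 * Real.pi * n) ^ 2 * ∫ x in (0 : ℝ)..1, G (x + y * Complex.I) * e n x := by
  have h1 : ContDiffOn ℝ 1 G S := hG.of_le (by norm_num)
  have h2 := contDiffOn_fderiv hG 1
  set D : ℂ → ℂ := fun z => fderiv ℝ G z 1 with hD
  have hperD : ∀ z ∈ S, D (z + 1) = D z := by
    intro z hz
    have : (fun z => G (z + 1)) =ᶠ[𝓝 z] G := by
      filter_upwards [isOpen_S.mem_nhds hz] with w hw using hper w hw
    have h3 := this.fderiv_eq (𝕜 := ℝ)
    rw [fderiv_comp_add_right] at h3
    simp only [hD, h3]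
  have hF : ∀ x : ℝ, HasDerivAt
      (fun x : ℝ => D (x + y * Complex.I) * e n x +
        (2 * Real.pi * Complex.I * n) * (G (x + y * Complex.I) * e n x))
      (fderiv ℝ D (x + y * Complex.I) 1 * e n x +
        (2 * Real.pi * n) ^ 2 * (G (x + y * Complex.I) * e n x)) x := by
    intro x
    have := ((hasDerivAt_x h2 (x := x) hy).mul (e_hasDerivAt n x)).add
      (((hasDerivAt_x h1 (x := x) hy).mul (e_hasDerivAt n x)).const_mul
        (2 * Real.pi * Complex.I * n))
    refine this.congr_deriv ?_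
    have hI : Complex.I ^ 2 = -1 := Complex.I_sq
    simp only [hD]
    ring_nf
    rw [hI]
    ring
  have hc1 : Continuous fun x : ℝ => fderiv ℝ D (x + y * Complex.I) 1 * e n x :=
    (cont_line (cont_fderiv h2 _) hy).mul (e_cont n)
  have hc2 : Continuous fun x : ℝ => G (x + y * Complex.I) * e n x :=
    (cont_line hG.continuousOn hy).mul (e_cont n)
  have hint := intervalIntegral.integral_eq_sub_of_hasDerivAt (a := 0) (b := 1)
    (fun x _ => hF x) ((hc1.add (hc2.const_mul ((2 * Real.pi * n) ^ 2))).intervalIntegrable _ _)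
  have he : e n 1 = e n 0 := by
    have := e_add_int n 0 1
    simpa using this
  have hG1 : G (((1 : ℝ) : ℂ) + y * Complex.I) = G (((0 : ℝ) : ℂ) + y * Complex.I) := by
    have := hper _ (line_mem (x := 0) hy)
    rw [← this]; congr 1; push_cast; ring
  have hD1 : D (((1 : ℝ) : ℂ) + y * Complex.I) = D (((0 : ℝ) : ℂ) + y * Complex.I) := by
    have := hperD _ (line_mem (x := 0) hy)
    rw [← this]; congr 1; push_cast; ring
  rw [he, hG1, hD1, sub_self, intervalIntegral.integral_add (hc1.intervalIntegrable _ _)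
    ((hc2.const_mul ((2 * Real.pi * n) ^ 2)).intervalIntegrable _ _),
    intervalIntegral.integral_const_mul] at hint
  rw [eq_neg_of_add_eq_zero_left hint]
  ring

theorem lapl_eq (hG : ContDiffOn ℝ 2 G S) {z : ℂ} (hz : z ∈ S) :
    lapl G z = fderiv ℝ (fun z => fderiv ℝ G z 1) z 1 +
      fderiv ℝ (fun z => fderiv ℝ G z Complex.I) z Complex.I := by
  have h1 : ContDiffOn ℝ 1 G S := hG.of_le (by norm_num)
  have key : ∀ v : ℂ, deriv (deriv (fun t : ℝ => G (z + t * v))) 0 =
      fderiv ℝ (fun z => fderiv ℝ G z v) z v := by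
    intro v
    have hline : ∀ t : ℝ, HasDerivAt (fun t : ℝ => z + (t : ℂ) * v) v t := by
      intro t
      have := ((Complex.ofRealCLM.hasDerivAt (x := t)).mul_const v).const_add z
      simpa using this
    have hd : ∀ {f : ℂ → ℂ}, ContDiffOn ℝ 1 f S → ∀ t : ℝ, z + t * v ∈ S →
        HasDerivAt (fun t : ℝ => f (z + t * v)) (fderiv ℝ f (z + t * v) v) t := by
      intro f hf t ht
      have : DifferentiableAt ℝ f (z + t * v) :=
        (hf.differentiableOn (by norm_num)).differentiableAt (isOpen_S.mem_nhds ht)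
      exact this.hasFDerivAt.comp_hasDerivAt t (hline t)
    have hev : ∀ᶠ t : ℝ in 𝓝 0, z + t * v ∈ S := by
      have : ContinuousAt (fun t : ℝ => z + (t : ℂ) * v) 0 := by fun_prop
      refine this.eventually (isOpen_S.mem_nhds ?_)
      simpa using hz
    have h3 : deriv (fun t : ℝ => G (z + t * v)) =ᶠ[𝓝 0]
        fun t : ℝ => fderiv ℝ G (z + t * v) v := by
      filter_upwards [hev] with t ht using (hd h1 t ht).deriv
    rw [h3.deriv_eq, (hd (contDiffOn_fderiv hG v) 0 (by simpa using hz)).deriv]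
    simp
  have k1 := key 1
  have k2 := key Complex.I
  simp only [mul_one] at k1
  rw [lapl, k1, k2]

end smooth

/-! ### Fourier series of periodic functions -/

theorem fourier_hasSum {F : ℝ → ℂ} (hF : Continuous F) (hper : Function.Periodic F 1)
    (hs : Summable fun n : ℤ => ∫ x in (0 : ℝ)..1, F x * e n x) (x : ℝ) :
    HasSum (fun n : ℤ => (∫ x in (0 : ℝ)..1, F x * e n x) *
      Complex.exp (2 * Real.pi * Complex.I * n * x)) (F x) := by
  have : Fact ((0 : ℝ) < 1) := ⟨one_pos⟩
  let f : C(AddCircle (1 : ℝ), ℂ) := ⟨hper.lift, continuous_coinduced_dom.mpr hF⟩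
  have hf : ∀ t : ℝ, f (t : AddCircle (1 : ℝ)) = F t := fun t => hper.lift_coe t
  have hc : ∀ n : ℤ, fourierCoeff f n = ∫ x in (0 : ℝ)..1, F x * e n x := by
    intro n
    rw [fourierCoeff_eq_intervalIntegral f n 0]
    simp only [zero_add, div_one, one_smul, smul_eq_mul, fourier_coe_apply, hf]
    refine intervalIntegral.integral_congr fun t _ => ?_
    simp only [e]
    rw [mul_comm]
    congr 2
    push_cast
    ring
  have h1 : Summable (fourierCoeff f) := by
    have : fourierCoeff f = fun n : ℤ => ∫ x in (0 : ℝ)..1, F x * e n x := funext hc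
    rw [this]; exact hs
  have h2 := has_pointwise_sum_fourier_series_of_summable h1 (x : AddCircle (1 : ℝ))
  simp only [hc, fourier_coe_apply, hf, smul_eq_mul, Complex.ofReal_one, div_one] at h2
  exact h2

theorem fourier_zero_of {F : ℝ → ℂ} (hF : Continuous F) (hper : Function.Periodic F 1)
    (h0 : ∀ n : ℤ, ∫ x in (0 : ℝ)..1, F x * e n x = 0) (x : ℝ) : F x = 0 := by
  have h1 := fourier_hasSum hF hper (by simp only [h0]; exact summable_zero) x
  simp only [h0, zero_mul] at h1
  exact h1.unique hasSum_zero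

/-! ### The symmetries -/

section form

variable {u : ℍ → ℂ}

theorem U_per (h : OddInv u) {z : ℂ} (hz : z ∈ S) :
    u (ofComplex (z + 1)) = u (ofComplex z) := by
  have hz' : 0 < (z + 1).im := by simpa [mem_S] using hz
  have h1 := h.inv ModularGroup.T (ofComplex z)
  rw [modular_T_smul] at h1
  rw [← h1]
  congr 1
  ext1
  rw [ofComplex_apply_of_im_pos hz', ofComplex_apply_of_im_pos hz]
  simp [UpperHalfPlane.coe_vadd, add_comm]

theorem U_per_nat (h : OddInv u) {z : ℂ} (hz : z ∈ S) (m : ℕ) :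
    u (ofComplex (z + m)) = u (ofComplex z) := by
  induction m with
  | zero => simp
  | succ m ih =>
    rw [← ih, Nat.cast_succ, ← add_assoc, U_per h]
    simpa [mem_S] using hz

theorem U_odd (h : OddInv u) {x y : ℝ} (hy : 0 < y) :
    u (ofComplex (((-x : ℝ) : ℂ) + y * Complex.I)) = - u (ofComplex (x + y * Complex.I)) := by
  have h1 := h.odd (ofComplex (x + y * Complex.I))
  rw [← h1]
  congr 1
  ext1
  rw [UpperHalfPlane.coe_J_smul, ofComplex_apply_of_im_pos (line_mem hy),
    ofComplex_apply_of_im_pos (line_mem hy)]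
  simp [map_add, map_mul, add_comm]

/-- the Fourier coefficients -/
noncomputable def co (u : ℍ → ℂ) (n : ℤ) (y : ℝ) : ℂ :=
  ∫ x in (0 : ℝ)..1, u (ofComplex (x + y * Complex.I)) * e n x

theorem per_line (h : OddInv u) {y : ℝ} (hy : 0 < y) :
    Function.Periodic (fun x : ℝ => u (ofComplex (x + y * Complex.I))) 1 := by
  intro x
  have := U_per h (line_mem (x := x) hy)
  dsimp only
  rw [← this]
  congr 2
  push_cast
  ring

theorem e_per (n : ℤ) : Function.Periodic (e n) 1 := by
  intro x
  simpa using e_add_int n x 1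

theorem co_neg (h : OddInv u) (n : ℤ) {y : ℝ} (hy : 0 < y) : co u (-n) y = - co u n y := by
  have hp : Function.Periodic (fun x : ℝ => u (ofComplex (x + y * Complex.I)) * e n x) 1 :=
    (per_line h hy).mul (e_per n)
  have h1 : ∫ x in (0 : ℝ)..1, u (ofComplex (((-x : ℝ) : ℂ) + y * Complex.I)) * e n (-x) =
      co u n y := by
    have h2 := intervalIntegral.integral_comp_neg (a := 0) (b := 1)
      (fun x : ℝ => u (ofComplex (x + y * Complex.I)) * e n x)
    rw [h2, co]
    have h3 := hp.intervalIntegral_add_eq (-1) 0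
    simpa using h3
  rw [← h1, co, ← intervalIntegral.integral_neg]
  refine intervalIntegral.integral_congr fun x _ => ?_
  have h4 : e (-n) x = e n (-x) := by
    simp only [e]
    congr 1
    push_cast
    ring
  simp only [U_odd h hy, h4]
  ring

theorem co_bound {C : ℝ} (hC : ∀ z, ‖u z‖ ≤ C) (n : ℤ) (y : ℝ) : ‖co u n y‖ ≤ C := by
  have := intervalIntegral.norm_integral_le_of_norm_le_const (a := (0 : ℝ)) (b := 1) (C := C)
    (f := fun x : ℝ => u (ofComplex (x + y * Complex.I)) * e n x) fun x _ => by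
      rw [norm_mul, norm_e, mul_one]; exact hC _
  simpa [co] using this

/-! ### The Hecke relation -/

/-- the part of the Hecke sum with denominator `d` -/
noncomputable def part (u : ℍ → ℂ) (a d : ℕ) (y x : ℝ) : ℂ :=
  ∑ b ∈ Finset.range d, u (ofComplex (((a : ℂ) * (x + y * Complex.I) + (b : ℂ)) / (d : ℂ)))

theorem arg_mem {a d : ℕ} (ha : 0 < a) (hd : 0 < d) {x y : ℝ} (hy : 0 < y) (b : ℂ)
    (hb : b.im = 0) : ((a : ℂ) * (x + y * Complex.I) + b) / (d : ℂ) ∈ S := by
  have : (((a : ℂ) * (x + y * Complex.I) + b) / (d : ℂ)).im = a * y / d := by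
    rw [Complex.div_natCast_im]
    simp [hb]
  rw [mem_S, this]
  positivity

theorem part_cont (hu : ContinuousOn (fun z : ℂ => u (ofComplex z)) S) {a d : ℕ} (ha : 0 < a)
    (hd : 0 < d) {y : ℝ} (hy : 0 < y) : Continuous (part u a d y) := by
  unfold part
  refine continuous_finsetSum _ fun b _ => ?_
  have h2 : Continuous fun x : ℝ => ((a : ℂ) * (x + y * Complex.I) + (b : ℂ)) / (d : ℂ) := by
    fun_prop
  exact hu.comp_continuous h2 fun x => arg_mem ha hd hy b (by simp)

theorem part_shift (h : OddInv u) {a d : ℕ} (ha : 0 < a) (hd : 0 < d) {y : ℝ} (hy : 0 < y)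
    (x : ℝ) : part u a d y (x + 1 / a) = part u a d y x := by
  unfold part
  set f : ℕ → ℂ := fun b =>
    u (ofComplex (((a : ℂ) * (x + y * Complex.I) + (b : ℂ)) / (d : ℂ))) with hf
  have ha' : (a : ℂ) ≠ 0 := by exact_mod_cast ha.ne'
  have hd' : (d : ℂ) ≠ 0 := by exact_mod_cast hd.ne'
  have h1 : ∀ b : ℕ, u (ofComplex (((a : ℂ) * (((x + 1 / a : ℝ) : ℂ) + y * Complex.I) + (b : ℂ)) /
      (d : ℂ))) = f (b + 1) := by
    intro b
    simp only [hf]
    congr 3
    push_cast
    field_simp
    ring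
  have h2 : f d = f 0 := by
    simp only [hf]
    rw [← U_per h (arg_mem ha hd hy ((0 : ℕ) : ℂ) (by simp))]
    congr 2
    field_simp
    simp
  simp only [h1]
  have h3 := Finset.sum_range_succ' f d
  have h4 := Finset.sum_range_succ f d
  rw [h4, h2] at h3
  exact (add_right_cancel h3).symm

theorem part_int_of_lt (h : OddInv u) {a d : ℕ} (ha : 2 ≤ a)
    (hd : 0 < d) {y : ℝ} (hy : 0 < y) :
    ∫ x in (0 : ℝ)..1, part u a d y x * e 1 x = 0 := by
  have ha0 : 0 < a := by omega
  have hper : Function.Periodic (fun x => part u a d y x * e 1 x) 1 := by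
    refine Function.Periodic.mul ?_ (e_per 1)
    have h1 : Function.Periodic (part u a d y) (1 / a) := part_shift h ha0 hd hy
    have h2 := h1.nat_mul a
    rwa [mul_one_div_cancel (by exact_mod_cast ha0.ne')] at h2
  have h1 := hper.intervalIntegral_add_eq (1 / (a : ℝ)) 0
  rw [zero_add] at h1
  have h2 := intervalIntegral.integral_comp_add_right (a := 0) (b := 1)
    (fun x => part u a d y x * e 1 x) (1 / (a : ℝ))
  rw [zero_add, add_comm 1 (1 / (a : ℝ)), h1] at h2
  have h3 : ∀ x : ℝ, part u a d y (x + 1 / a) * e 1 (x + 1 / a) =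
      e 1 (1 / a) * (part u a d y x * e 1 x) := by
    intro x
    have : e 1 (x + 1 / a) = e 1 x * e 1 (1 / a) := by
      simp only [e]
      rw [← Complex.exp_add]
      congr 1
      push_cast
      ring
    rw [part_shift h ha0 hd hy, this]
    ring
  simp only [h3, intervalIntegral.integral_const_mul] at h2
  have h4 : e 1 (1 / a) ≠ 1 := by
    intro he
    rw [e, Complex.exp_eq_one_iff] at he
    obtain ⟨m, hm⟩ := he
    have h5 : (2 * Real.pi * Complex.I : ℂ) ≠ 0 := Complex.two_pi_I_ne_zero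
    have ha' : (a : ℂ) ≠ 0 := by exact_mod_cast ha0.ne'
    have h6 : (m : ℂ) * a = -1 := by
      have : (2 * Real.pi * Complex.I : ℂ) * ((m : ℂ) * a) = (2 * Real.pi * Complex.I : ℂ) * (-1) := by
        have h7 : (2 * Real.pi * Complex.I : ℂ) * ((m : ℂ) * a) =
            (m * (2 * Real.pi * Complex.I)) * a := by ring
        rw [h7, ← hm]
        push_cast
        field_simp
      exact mul_left_cancel₀ h5 this
    have h8 : m * (a : ℤ) = -1 := by exact_mod_cast h6
    have h9 : (a : ℤ) ∣ 1 := ⟨-m, by linarith⟩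
    have h10 := Int.le_of_dvd one_pos h9
    omega
  have h5 : (e 1 (1 / a) - 1) * ∫ x in (0 : ℝ)..1, part u a d y x * e 1 x = 0 := by
    rw [sub_mul, h2]; ring
  exact (mul_eq_zero.1 h5).resolve_left (sub_ne_zero.2 h4)

theorem part_int_top (hu : ContinuousOn (fun z : ℂ => u (ofComplex z)) S) {n : ℕ}
    (hn : 0 < n) {y : ℝ} (hy : 0 < y) :
    ∫ x in (0 : ℝ)..1, part u 1 n y x * e 1 x = n * co u n (y / n) := by
  have hn' : (n : ℂ) ≠ 0 := by exact_mod_cast hn.ne'
  have hnr : (n : ℝ) ≠ 0 := by exact_mod_cast hn.ne'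
  set g : ℝ → ℂ := fun t => u (ofComplex (((t : ℂ) + y * Complex.I) / n)) * e 1 t with hg
  have hgc : Continuous g := by
    refine Continuous.mul ?_ (e_cont 1)
    have h2 : Continuous fun t : ℝ => ((t : ℂ) + y * Complex.I) / (n : ℂ) := by fun_prop
    refine hu.comp_continuous h2 fun t => ?_
    have := arg_mem (a := 1) (x := t) one_pos hn hy 0 (by simp)
    simpa using this
  have h1 : ∀ x : ℝ, part u 1 n y x * e 1 x = ∑ b ∈ Finset.range n, g (x + b) := by
    intro x
    rw [part, Finset.sum_mul]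
    refine Finset.sum_congr rfl fun b _ => ?_
    have : e 1 (x + b) = e 1 x := by
      have := e_add_int 1 x b
      exact_mod_cast this
    simp only [hg, this]
    congr 4
    push_cast
    ring
  simp only [h1]
  have hgb : ∀ b : ℕ, Continuous fun x : ℝ => g (x + b) := fun b => hgc.comp (by fun_prop)
  rw [intervalIntegral.integral_finsetSum fun b _ => (hgb b).intervalIntegrable _ _]
  have h2 : ∀ b : ℕ, ∫ x in (0 : ℝ)..1, g (x + b) = ∫ x in (b : ℝ)..((b + 1 : ℕ) : ℝ), g x := by
    intro b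
    rw [intervalIntegral.integral_comp_add_right]
    congr 1 <;> push_cast <;> ring
  simp only [h2]
  rw [intervalIntegral.sum_integral_adjacent_intervals (a := fun k : ℕ => (k : ℝ))
    fun k _ => hgc.intervalIntegrable _ _]
  have h3 := intervalIntegral.integral_comp_mul_left (a := 0) (b := 1) g hnr
  rw [mul_zero, mul_one] at h3
  have h4 : ∀ s : ℝ, g (n * s) =
      u (ofComplex ((s : ℂ) + ((y / n : ℝ) : ℂ) * Complex.I)) * e n s := by
    intro s
    have h5 : (((n * s : ℝ) : ℂ) + y * Complex.I) / (n : ℂ) =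
        (s : ℂ) + ((y / n : ℝ) : ℂ) * Complex.I := by
      push_cast
      field_simp
    have h6 : e 1 (n * s) = e n s := by
      simp only [e]
      congr 1
      push_cast
      ring
    rw [hg]
    change u (ofComplex ((((n * s : ℝ) : ℂ) + y * Complex.I) / (n : ℂ))) * e 1 (n * s) = _
    rw [h5, h6]
  simp only [h4] at h3
  rw [co, h3, Nat.cast_zero]
  rw [Complex.real_smul]
  push_cast
  field_simp

theorem hecke_co (h : OddInv u) (hu : ContinuousOn (fun z : ℂ => u (ofComplex z)) S) {n : ℕ}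
    (hn : 1 ≤ n) {cn : ℂ} (hk' : ∀ z, hk n u z = cn * u z) {y : ℝ} (hy : 0 < y) :
    cn * co u 1 y = ((Real.sqrt n : ℝ) : ℂ)⁻¹ * (n * co u n (y / n)) := by
  have hn0 : 0 < n := hn
  have h1 : ∀ x : ℝ, cn * (u (ofComplex (x + y * Complex.I)) * e 1 x) =
      ((Real.sqrt n : ℝ) : ℂ)⁻¹ * ∑ d ∈ n.divisors, part u (n / d) d y x * e 1 x := by
    intro x
    have h2 := hk' (ofComplex (x + y * Complex.I))
    rw [← mul_assoc, ← h2, hk, ofComplex_apply_of_im_pos (line_mem hy)]
    rw [mul_assoc, Finset.sum_mul]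
    rfl
  have h2 : cn * co u 1 y = ∫ x in (0 : ℝ)..1,
      cn * (u (ofComplex (x + y * Complex.I)) * e 1 x) := by
    rw [intervalIntegral.integral_const_mul]; rfl
  rw [h2]
  simp only [h1]
  rw [intervalIntegral.integral_const_mul, intervalIntegral.integral_finsetSum]
  · congr 1
    rw [Finset.sum_eq_single_of_mem n (Nat.mem_divisors_self n hn0.ne')]
    · rw [Nat.div_self hn0]
      exact part_int_top hu hn0 hy
    · intro d hd hdn
      have hdv := Nat.dvd_of_mem_divisors hd
      have hd0 : 0 < d := Nat.pos_of_mem_divisors hd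
      refine part_int_of_lt h ?_ hd0 hy
      obtain ⟨a, ha⟩ := hdv
      have h5 : n / d = a := by rw [ha, Nat.mul_div_cancel_left _ hd0]
      rw [h5]
      rcases a with _ | _ | a
      · simp at ha; omega
      · simp at ha; omega
      · omega
  · intro d hd
    have hdv := Nat.dvd_of_mem_divisors hd
    have hd0 : 0 < d := Nat.pos_of_mem_divisors hd
    have ha0 : 0 < n / d := Nat.div_pos (Nat.le_of_dvd hn0 hdv) hd0
    exact ((part_cont hu ha0 hd0 hy).mul (e_cont 1)).intervalIntegrable _ _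

end form

/-! ### The Whittaker function -/

/-- Piece W of the project OM. -/
theorem whittaker {u : ℍ → ℂ} {lam : ℂ} {c : ℕ → ℂ} (h : HM u lam c) :
    ∃ W W' : ℝ → ℂ, (∃ y, 0 < y ∧ W y ≠ 0) ∧ (∃ C : ℝ, ∀ y, 0 < y → ‖W y‖ ≤ C) ∧
      (∀ y : ℝ, 0 < y → HasDerivAt W (W' y) y) ∧
      (∀ y : ℝ, 0 < y → HasDerivAt W' ((4 * Real.pi ^ 2 - lam / (y : ℂ) ^ 2) * W y) y) ∧
      ∀ n : ℕ, 1 ≤ n → ∀ y : ℝ, 0 < y →
        ∫ x in (0 : ℝ)..1, u (ofComplex (x + y * Complex.I)) *
          Complex.exp (-(2 * Real.pi * Complex.I * n * x)) =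
        c n / (Real.sqrt n : ℝ) * W (n * y) := by
  have hsm : ContDiffOn ℝ 2 (fun z : ℂ => u (ofComplex z)) S := h.smooth
  have hcu : ContinuousOn (fun z : ℂ => u (ofComplex z)) S := hsm.continuousOn
  have hrel : ∀ n : ℕ, 1 ≤ n → ∀ y : ℝ, 0 < y →
      co u n y = c n / (Real.sqrt n : ℝ) * co u 1 (n * y) := by
    intro n hn y hy
    have hn0 : (0 : ℝ) < n := by exact_mod_cast hn
    have h1 := hecke_co h.oi hcu hn (h.hecke n hn) (y := n * y) (by positivity)
    rw [mul_div_cancel_left₀ _ hn0.ne'] at h1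
    have hs : ((Real.sqrt n : ℝ) : ℂ) ≠ 0 := by
      exact_mod_cast (Real.sqrt_pos.2 hn0).ne'
    have hs2 : ((Real.sqrt n : ℝ) : ℂ) * ((Real.sqrt n : ℝ) : ℂ) = n := by
      exact_mod_cast Real.mul_self_sqrt hn0.le
    have h2 : c n / (Real.sqrt n : ℝ) * co u 1 (n * y) =
        (c n * co u 1 (n * y)) / (Real.sqrt n : ℝ) := by ring
    rw [h2, h1]
    field_simp
    rw [pow_two, hs2]
  refine ⟨co u 1, fun y => ∫ x in (0 : ℝ)..1,
    fderiv ℝ (fun z : ℂ => u (ofComplex z)) (x + y * Complex.I) Complex.I * e 1 x, ?_, ?_, ?_, ?_, ?_⟩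
  · by_contra hno
    push Not at hno
    have h0 : ∀ y : ℝ, 0 < y → ∀ n : ℤ, co u n y = 0 := by
      intro y hy n
      have hpos : ∀ m : ℕ, 1 ≤ m → co u m y = 0 := by
        intro m hm
        have hm0 : (0 : ℝ) < m := by exact_mod_cast hm
        rw [hrel m hm y hy, hno _ (by positivity), mul_zero]
      rcases lt_trichotomy n 0 with hn | hn | hn
      · have h1 := hpos n.natAbs (by omega)
        have h2 : n = -(n.natAbs : ℤ) := by omega
        rw [h2, co_neg h.oi _ hy, h1, neg_zero]
      · have h1 := co_neg h.oi 0 hy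
        rw [hn]
        rw [neg_zero] at h1
        exact self_eq_neg.1 h1
      · have h1 := hpos n.natAbs (by omega)
        have h2 : n = (n.natAbs : ℤ) := by omega
        rw [h2]; exact h1
    obtain ⟨z, hz⟩ := h.ne
    apply hz
    have h1 := fourier_zero_of (cont_line hcu z.im_pos) (per_line h.oi z.im_pos)
      (fun n => h0 z.im z.im_pos n) z.re
    have h2 : ((z.re : ℂ) + z.im * Complex.I) = (z : ℂ) := Complex.re_add_im _
    rw [h2, ofComplex_apply] at h1
    exact h1
  · obtain ⟨C, hC⟩ := h.bd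
    exact ⟨C, fun y _ => co_bound hC 1 y⟩
  · intro y hy
    exact hasDerivAt_coeff (hsm.of_le (by norm_num)) 1 hy
  · intro y hy
    have h1 := hasDerivAt_coeff (contDiffOn_fderiv hsm Complex.I) 1 hy
    refine h1.congr_deriv ?_
    have h2 : ∀ x : ℝ, fderiv ℝ (fun z => fderiv ℝ (fun z : ℂ => u (ofComplex z)) z Complex.I)
        (x + y * Complex.I) Complex.I * e 1 x =
        -(lam / (y : ℂ) ^ 2) * (u (ofComplex (x + y * Complex.I)) * e 1 x) -
        fderiv ℝ (fun z => fderiv ℝ (fun z : ℂ => u (ofComplex z)) z 1)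
        (x + y * Complex.I) 1 * e 1 x := by
      intro x
      have h3 := h.lap (x + y * Complex.I) (line_mem (x := x) hy)
      rw [lapl_eq hsm (line_mem hy)] at h3
      have h4 : ((x : ℂ) + y * Complex.I).im = y := by simp
      rw [h4] at h3
      have hy' : (y : ℂ) ≠ 0 := by exact_mod_cast hy.ne'
      have h5 : fderiv ℝ (fun z => fderiv ℝ (fun z : ℂ => u (ofComplex z)) z Complex.I)
          (x + y * Complex.I) Complex.I = -(lam / (y : ℂ) ^ 2) * u (ofComplex (x + y * Complex.I)) -
          fderiv ℝ (fun z => fderiv ℝ (fun z : ℂ => u (ofComplex z)) z 1)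
          (x + y * Complex.I) 1 := by
        field_simp
        linear_combination -h3
      rw [h5]
      ring
    simp only [h2]
    have hc1 : Continuous fun x : ℝ => u (ofComplex (x + y * Complex.I)) * e 1 x :=
      (cont_line hcu hy).mul (e_cont 1)
    have hc2 : Continuous fun x : ℝ => fderiv ℝ (fun z => fderiv ℝ (fun z : ℂ =>
        u (ofComplex z)) z 1) (x + y * Complex.I) 1 * e 1 x :=
      (cont_line (cont_fderiv (contDiffOn_fderiv hsm 1) _) hy).mul (e_cont 1)
    rw [intervalIntegral.integral_sub ((hc1.const_mul _).intervalIntegrable _ _)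
      (hc2.intervalIntegrable _ _), intervalIntegral.integral_const_mul,
      integral_xx hsm (fun z hz => U_per h.oi hz) 1 hy, co]
    push_cast
    ring
  · intro n hn y hy
    have h1 := hrel n hn y hy
    rw [← h1, co]
    refine intervalIntegral.integral_congr fun x _ => ?_
    simp [e]

end Run7.h488.OM
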