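import Pool.Agent.Run7.h488.OM.W

/-!
# Project OM, lemma W2: the Fourier expansion of an odd Hecke-Maass cusp form
-/

set_option autoImplicit false

open UpperHalfPlane MeasureTheory Complex Filter Topology
open scoped MatrixGroups

namespace Run7.h488.OM

open Run7.h992.OM

theorem co_zero {u : ℍ → ℂ} (h : OddInv u) {y : ℝ} (hy : 0 < y) : co u 0 y = 0 := by
  have h1 := co_neg h 0 hy
  rw [neg_zero] at h1
  exact self_eq_neg.1 h1

/-- The Fourier expansion, given the decay of `W` and the formula for the coefficients. -/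
theorem W2 {u : ℍ → ℂ} {lam : ℂ} {c : ℕ → ℂ} (h : HM u lam c) {W : ℝ → ℂ}
    (hdec : ∃ C : ℝ, ∀ y, 0 < y → ‖W y‖ ≤ C * Real.exp (-y))
    (hW : ∀ n : ℕ, 1 ≤ n → ∀ y : ℝ, 0 < y →
        ∫ x in (0 : ℝ)..1, u (ofComplex (x + y * Complex.I)) *
          Complex.exp (-(2 * Real.pi * Complex.I * n * x)) =
        c n / (Real.sqrt n : ℝ) * W (n * y))
    (x y : ℝ) (hy : 0 < y) :
    HasSum (fun n : ℕ => c n / (Real.sqrt n : ℝ) * W (n * y) *
      (2 * Complex.I * Complex.sin (2 * Real.pi * n * x))) (u (ofComplex (x + y * Complex.I))) := by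
  have hcu : ContinuousOn (fun z : ℂ => u (ofComplex z)) S := h.smooth.continuousOn
  have hrel : ∀ n : ℕ, 1 ≤ n → ∀ y : ℝ, 0 < y →
      co u n y = c n / (Real.sqrt n : ℝ) * W (n * y) := by
    intro n hn y hy
    rw [← hW n hn y hy, co]
    refine intervalIntegral.integral_congr fun x _ => ?_
    simp [e]
  obtain ⟨C, hC⟩ := hdec
  obtain ⟨C', hC'⟩ := h.bd
  -- the bound for the coefficients
  have hA : ∃ A : ℝ, 0 ≤ A ∧ ∀ n : ℕ, ‖co u n y‖ ≤ A * Real.exp (-y) ^ n := by
    by_cases hno : ∃ y0 : ℝ, 0 < y0 ∧ W y0 ≠ 0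
    · obtain ⟨y0, hy0, hWy0⟩ := hno
      have hWpos : 0 < ‖W y0‖ := norm_pos_iff.2 hWy0
      have hC0 : 0 ≤ C := by
        have h1 := (norm_nonneg _).trans (hC y0 hy0)
        by_contra hneg
        push Not at hneg
        have := mul_neg_of_neg_of_pos hneg (Real.exp_pos (-y0))
        linarith
      have hC'0 : 0 ≤ C' := (norm_nonneg _).trans (hC' (ofComplex Complex.I))
      refine ⟨C' / ‖W y0‖ * C, by positivity, fun n => ?_⟩
      rcases Nat.eq_zero_or_pos n with rfl | hn
      · rw [Nat.cast_zero, co_zero h.oi hy]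
        simp only [norm_zero, pow_zero, mul_one]
        positivity
      · have hn0 : (0 : ℝ) < n := by exact_mod_cast hn
        have h1 := hrel n hn (y0 / n) (by positivity)
        rw [mul_div_cancel₀ _ hn0.ne'] at h1
        have h2 : ‖c n / (Real.sqrt n : ℝ)‖ ≤ C' / ‖W y0‖ := by
          rw [le_div_iff₀ hWpos, ← norm_mul, ← h1]
          exact co_bound hC' _ _
        rw [hrel n hn y hy, norm_mul]
        have h3 := hC (n * y) (by positivity)
        have h4 : Real.exp (-(n * y)) = Real.exp (-y) ^ n := by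
          rw [← Real.exp_nat_mul]
          congr 1
          ring
        rw [h4] at h3
        calc ‖c n / (Real.sqrt n : ℝ)‖ * ‖W (n * y)‖
            ≤ (C' / ‖W y0‖) * (C * Real.exp (-y) ^ n) :=
              mul_le_mul h2 h3 (norm_nonneg _) (by positivity)
          _ = C' / ‖W y0‖ * C * Real.exp (-y) ^ n := by ring
    · push Not at hno
      refine ⟨0, le_rfl, fun n => ?_⟩
      rcases Nat.eq_zero_or_pos n with rfl | hn
      · rw [Nat.cast_zero, co_zero h.oi hy]
        simp
      · have hn0 : (0 : ℝ) < n := by exact_mod_cast hn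
        rw [hrel n hn y hy, hno _ (by positivity)]
        simp
  obtain ⟨A, hA0, hA⟩ := hA
  have hr : Real.exp (-y) < 1 := by rw [Real.exp_lt_one_iff]; linarith
  have hgeo : Summable fun n : ℕ => A * Real.exp (-y) ^ n :=
    (summable_geometric_of_lt_one (Real.exp_pos _).le hr).mul_left A
  have hs1 : Summable fun n : ℕ => co u n y := Summable.of_norm_bounded hgeo hA
  have hs2 : Summable fun n : ℕ => co u (-(n : ℤ)) y := by
    simp only [co_neg h.oi _ hy]
    exact hs1.neg
  have hs : Summable fun n : ℤ => co u n y := Summable.of_nat_of_neg hs1 hs2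
  have h1 := fourier_hasSum (cont_line hcu hy) (per_line h.oi hy) hs x
  have h2 := h1.nat_add_neg
  have h3 : (∫ x in (0 : ℝ)..1, (fun x : ℝ => u (ofComplex (x + y * Complex.I))) x * e 0 x) = 0 :=
    co_zero h.oi hy
  rw [h3, zero_mul, add_zero] at h2
  have h4 : ∀ n : ℕ, c n / (Real.sqrt n : ℝ) * W (n * y) *
      (2 * Complex.I * Complex.sin (2 * Real.pi * n * x)) =
      co u n y * Complex.exp (2 * Real.pi * Complex.I * (n : ℤ) * x) +
        co u (-(n : ℤ)) y * Complex.exp (2 * Real.pi * Complex.I * ((-(n : ℤ) : ℤ) : ℂ) * x) := by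
    intro n
    rcases Nat.eq_zero_or_pos n with rfl | hn
    · simp [co_zero h.oi hy]
    · rw [co_neg h.oi _ hy, hrel n hn y hy, Complex.sin]
      have h5 : Complex.exp (2 * Real.pi * Complex.I * (n : ℤ) * x) =
          Complex.exp (2 * Real.pi * n * x * Complex.I) := by
        congr 1
        push_cast
        ring
      have h6 : Complex.exp (2 * Real.pi * Complex.I * ((-(n : ℤ) : ℤ) : ℂ) * x) =
          Complex.exp (-(2 * Real.pi * n * x) * Complex.I) := by
        congr 1
        push_cast
        ring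
      rw [h5, h6]
      have hI : Complex.I ^ 2 = -1 := Complex.I_sq
      linear_combination (c n / (Real.sqrt n : ℝ) * W (n * y) *
        (Complex.exp (-(2 * Real.pi * n * x) * Complex.I) -
          Complex.exp (2 * Real.pi * n * x * Complex.I))) * hI
  simp only [h4]
  exact h2

end Run7.h488.OM
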